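import Pool.Agent.helper92.ISO.SpecG

/-!
# Project ISO, row UPB: the uniform strategy of the first player
-/

set_option autoImplicit false

open Filter Topology

namespace Pool.Agent.ISO

open Pool.Agent.PB

/-- the harmonic number as a real sum -/
theorem UPB_harm (n : ℕ) : ((harmonic n : ℚ) : ℝ) = ∑ i ∈ Finset.range n, 1 / ((i + 1 : ℕ) : ℝ) := by
  rw [harmonic]
  push_cast
  exact Finset.sum_congr rfl fun i _ => by rw [one_div]

theorem UPB_pos {n : ℕ} (hn : 1 ≤ n) : (0 : ℝ) < ((harmonic n : ℚ) : ℝ) := by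
  rw [UPB_harm]
  exact Finset.sum_pos (fun i _ => by positivity) ⟨0, Finset.mem_range.2 hn⟩

/-- the sum over all sets sorted by the part in `T` and the part outside `T` -/
theorem UPB_sum {m : ℕ} (T : Finset (Fin m)) (F : ℕ → ℕ → ℝ) :
    ∑ K : Finset (Fin m), F (T ∩ K).card K.card =
      ∑ r ∈ Finset.range (T.card + 1), (T.card.choose r : ℝ) *
        ∑ j ∈ Finset.range (m - T.card + 1), ((m - T.card).choose j : ℝ) * F r (r + j) := by
  have h1 : ∑ K : Finset (Fin m), F (T ∩ K).card K.card =
      ∑ p ∈ T.powerset ×ˢ Tᶜ.powerset, F p.1.card (p.1.card + p.2.card) := by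
    refine Finset.sum_bij' (fun K _ => (T ∩ K, Tᶜ ∩ K)) (fun p _ => p.1 ∪ p.2) ?_ ?_ ?_ ?_ ?_
    · intro K _
      rw [Finset.mem_product, Finset.mem_powerset, Finset.mem_powerset]
      exact ⟨Finset.inter_subset_left, Finset.inter_subset_left⟩
    · intro p _
      exact Finset.mem_univ _
    · intro K _
      show (T ∩ K) ∪ (Tᶜ ∩ K) = K
      ext x
      simp only [Finset.mem_union, Finset.mem_inter, Finset.mem_compl]
      tauto
    · intro p hp
      rw [Finset.mem_product, Finset.mem_powerset, Finset.mem_powerset] at hp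
      obtain ⟨hA, hB⟩ := hp
      refine Prod.ext ?_ ?_
      · show T ∩ (p.1 ∪ p.2) = p.1
        ext x
        simp only [Finset.mem_union, Finset.mem_inter]
        constructor
        · rintro ⟨h1, h2 | h2⟩
          · exact h2
          · exact absurd h1 (Finset.mem_compl.1 (hB h2))
        · intro h1
          exact ⟨hA h1, Or.inl h1⟩
      · show Tᶜ ∩ (p.1 ∪ p.2) = p.2
        ext x
        simp only [Finset.mem_union, Finset.mem_inter]
        constructor
        · rintro ⟨h1, h2 | h2⟩
          · exact absurd (hA h2) (Finset.mem_compl.1 h1)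
          · exact h2
        · intro h1
          exact ⟨hB h1, Or.inr h1⟩
    · intro K _
      show F (T ∩ K).card K.card = F (T ∩ K).card ((T ∩ K).card + (Tᶜ ∩ K).card)
      have h2 : (T ∩ K).card + (Tᶜ ∩ K).card = K.card := by
        rw [← Finset.card_union_of_disjoint]
        · have h3 : (T ∩ K) ∪ (Tᶜ ∩ K) = K := by
            ext x
            simp only [Finset.mem_union, Finset.mem_inter, Finset.mem_compl]
            tauto
          rw [h3]
        · rw [Finset.disjoint_left]
          intro x hx hx'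
          rw [Finset.mem_inter] at hx hx'
          exact Finset.mem_compl.1 hx'.1 hx.1
      rw [h2]
  rw [h1, Finset.sum_product]
  have h2 : ∀ A ∈ T.powerset, ∑ B ∈ Tᶜ.powerset, F A.card (A.card + B.card) =
      ∑ j ∈ Finset.range (m - T.card + 1), ((m - T.card).choose j : ℝ) * F A.card (A.card + j) := by
    intro A _
    have h3 := Finset.sum_powerset_apply_card (fun j => F A.card (A.card + j)) (x := Tᶜ)
    rw [h3, Finset.card_compl, Fintype.card_fin]
    exact Finset.sum_congr rfl fun j _ => by rw [nsmul_eq_mul]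
  rw [Finset.sum_congr rfl h2]
  have h4 := Finset.sum_powerset_apply_card (fun r => ∑ j ∈ Finset.range (m - T.card + 1), ((m - T.card).choose j : ℝ) * F r (r + j)) (x := T)
  rw [h4]
  exact Finset.sum_congr rfl fun r _ => by rw [nsmul_eq_mul]

theorem UPB_proof (hIDE : IDE_stmt) : UPB_stmt := by
  intro m κ hκ hm
  have hH : (0 : ℝ) < ((harmonic m : ℚ) : ℝ) := UPB_pos (hκ.trans hm)
  obtain ⟨H, hHd⟩ : ∃ H : ℝ, H = ((harmonic m : ℚ) : ℝ) := ⟨_, rfl⟩
  rw [← hHd] at hH ⊢
  obtain ⟨w, hw⟩ : ∃ w : ℕ → ℝ, ∀ t, w t = if t = 0 then 0 else 1 / (H * (t * (m.choose t : ℝ))) := ⟨_, fun t => rfl⟩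
  refine ⟨fun K => w K.card, ⟨?_, ?_, ?_⟩, ?_⟩
  · intro K
    show 0 ≤ w K.card
    rw [hw]
    split_ifs
    · exact le_rfl
    · positivity
  · intro K hK
    refine ⟨?_, ?_⟩
    · by_contra h0
      apply hK
      show w K.card = 0
      rw [hw, if_pos (by omega)]
    · have h1 := Finset.card_le_univ K
      rwa [Fintype.card_fin] at h1
  · have h1 := Finset.sum_powerset_apply_card w (x := (Finset.univ : Finset (Fin m)))
    rw [Finset.powerset_univ, Finset.card_univ, Fintype.card_fin] at h1
    show ∑ K : Finset (Fin m), w K.card = 1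
    rw [h1, Finset.sum_range_succ']
    have h2 : m.choose 0 • w 0 = 0 := by
      rw [hw, if_pos rfl, smul_zero]
    rw [h2, add_zero]
    have h3 : ∀ i ∈ Finset.range m, m.choose (i + 1) • w (i + 1) = (1 / H) * (1 / ((i + 1 : ℕ) : ℝ)) := by
      intro i hi
      rw [Finset.mem_range] at hi
      have h4 : (0 : ℝ) < (m.choose (i + 1) : ℝ) := by
        exact_mod_cast Nat.choose_pos (by omega : i + 1 ≤ m)
      have h5 : (0 : ℝ) < ((i + 1 : ℕ) : ℝ) := by positivity
      rw [hw, if_neg (by omega), nsmul_eq_mul]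
      field_simp
    rw [Finset.sum_congr rfl h3, ← Finset.mul_sum, ← UPB_harm, ← hHd]
    field_simp
  · intro T
    show ∑ K with Hit κ T K, w K.card ≤ ((harmonic κ : ℚ) : ℝ) / H
    have h1 : ∑ K with Hit κ T K, w K.card =
        ∑ K : Finset (Fin m), (fun r t => if 1 ≤ r ∧ r ≤ κ then w t else 0) (T ∩ K).card K.card := by
      rw [Finset.sum_filter]
      refine Finset.sum_congr rfl fun K _ => ?_
      by_cases h : 1 ≤ (T ∩ K).card ∧ (T ∩ K).card ≤ κ
      · rw [if_pos (show Hit κ T K from h)]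
        show w K.card = if 1 ≤ (T ∩ K).card ∧ (T ∩ K).card ≤ κ then w K.card else 0
        rw [if_pos h]
      · rw [if_neg (show ¬ Hit κ T K from h)]
        show 0 = if 1 ≤ (T ∩ K).card ∧ (T ∩ K).card ≤ κ then w K.card else 0
        rw [if_neg h]
    rw [h1, UPB_sum T (fun r t => if 1 ≤ r ∧ r ≤ κ then w t else 0)]
    have hTm : T.card ≤ m := by
      have h2 := Finset.card_le_univ T
      rwa [Fintype.card_fin] at h2
    have h2 : ∀ r ∈ Finset.range (T.card + 1), (T.card.choose r : ℝ) *
        ∑ j ∈ Finset.range (m - T.card + 1), ((m - T.card).choose j : ℝ) * (fun r t => if 1 ≤ r ∧ r ≤ κ then w t else 0) r (r + j) =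
        if 1 ≤ r ∧ r ≤ κ then (1 / H) * (1 / (r : ℝ)) else 0 := by
      intro r hr
      rw [Finset.mem_range] at hr
      by_cases h : 1 ≤ r ∧ r ≤ κ
      · rw [if_pos h]
        have h3 := hIDE T.card r (m - T.card) h.1 (by omega)
        rw [← h3, Finset.mul_sum, Finset.mul_sum]
        refine Finset.sum_congr rfl fun j hj => ?_
        rw [Finset.mem_range] at hj
        show (T.card.choose r : ℝ) * (((m - T.card).choose j : ℝ) * (if 1 ≤ r ∧ r ≤ κ then w (r + j) else 0)) = _
        rw [if_pos h, hw, if_neg (by omega), show T.card + (m - T.card) = m by omega]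
        have h4 : (0 : ℝ) < (m.choose (r + j) : ℝ) := by
          exact_mod_cast Nat.choose_pos (by omega : r + j ≤ m)
        have h5 : (0 : ℝ) < ((r + j : ℕ) : ℝ) := by
          have : 0 < r + j := by omega
          exact_mod_cast this
        field_simp
      · rw [if_neg h]
        have h3 : ∑ j ∈ Finset.range (m - T.card + 1), ((m - T.card).choose j : ℝ) * (fun r t => if 1 ≤ r ∧ r ≤ κ then w t else 0) r (r + j) = 0 := by
          refine Finset.sum_eq_zero fun j _ => ?_
          show ((m - T.card).choose j : ℝ) * (if 1 ≤ r ∧ r ≤ κ then w (r + j) else 0) = 0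
          rw [if_neg h, mul_zero]
        rw [h3, mul_zero]
    rw [Finset.sum_congr rfl h2, ← Finset.sum_filter]
    have h3 : ((harmonic κ : ℚ) : ℝ) / H = ∑ r ∈ Finset.Icc 1 κ, (1 / H) * (1 / (r : ℝ)) := by
      rw [← Finset.mul_sum, UPB_harm]
      have h4 : ∑ r ∈ Finset.Icc 1 κ, 1 / (r : ℝ) = ∑ i ∈ Finset.range κ, 1 / ((i + 1 : ℕ) : ℝ) := by
        rw [Finset.range_eq_Ico, Finset.sum_Ico_add' (fun i : ℕ => 1 / (i : ℝ)) 0 κ 1]
        rfl
      rw [h4]
      ring
    rw [h3]
    refine Finset.sum_le_sum_of_subset_of_nonneg ?_ ?_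
    · intro r hr
      rw [Finset.mem_filter] at hr
      exact Finset.mem_Icc.2 hr.2
    · intro r _ _
      positivity

end Pool.Agent.ISO
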